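import Pool.Agent.MP_caba0b_al.H53.Theta

/-! Gaussian sums over sublattices. -/

namespace Pool.Agent.MP_caba0b_al.H53

open Real

variable {n : ℕ}

/-- the shifted Gaussian on the lattice -/
noncomputable def gau (a : ℝ) (y : Fin n → ℝ) (k : Fin n → ℤ) : ℝ :=
  Real.exp (-(a * ∑ i, ((k i : ℝ) + y i) ^ 2))

lemma gau_pos (a : ℝ) (y : Fin n → ℝ) (k : Fin n → ℤ) : 0 < gau a y k := Real.exp_pos _

lemma gau_eq_prod (a : ℝ) (y : Fin n → ℝ) (k : Fin n → ℤ) :
    gau a y k = ∏ i, Real.exp (-(a * ((k i : ℝ) + y i) ^ 2)) := by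
  rw [gau, ← Real.exp_sum, Finset.mul_sum, Finset.sum_neg_distrib]

lemma sum_gau_le {a : ℝ} (ha : 0 < a) (y : Fin n → ℝ) (Λ : Finset (Fin n → ℤ)) :
    ∑ k ∈ Λ, gau a y k ≤ ((1 + 1 / a) * C0) ^ n := by
  classical
  calc ∑ k ∈ Λ, gau a y k ≤ ∑ k ∈ Fintype.piFinset (fun i => Λ.image (fun k => k i)), gau a y k :=
        Finset.sum_le_sum_of_subset_of_nonneg
          (fun k hk => Fintype.mem_piFinset.2 fun i => Finset.mem_image_of_mem _ hk)
          (fun k _ _ => (gau_pos a y k).le)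
    _ = ∏ i, ∑ j ∈ (Λ.image (fun k => k i) : Finset ℤ),
          Real.exp (-(a * (((j : ℤ) : ℝ) + y i) ^ 2)) := by
        rw [Finset.prod_univ_sum]
        exact Finset.sum_congr rfl fun k _ => gau_eq_prod a y k
    _ ≤ ∏ _i : Fin n, ((1 + 1 / a) * C0) :=
        Finset.prod_le_prod (fun i _ => Finset.sum_nonneg fun j _ => (Real.exp_pos _).le)
          (fun i _ => ((summable_th ha (y i)).sum_le_tsum _
            (fun j _ => (Real.exp_pos _).le)).trans (th_le ha (y i)))
    _ = _ := by simp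

lemma summable_gau {a : ℝ} (ha : 0 < a) (y : Fin n → ℝ) : Summable (gau a y) :=
  summable_of_sum_le (fun k => (gau_pos a y k).le) (sum_gau_le ha y)

lemma tsum_gau_le {a : ℝ} (ha : 0 < a) (y : Fin n → ℝ) :
    ∑' k, gau a y k ≤ ((1 + 1 / a) * C0) ^ n :=
  (summable_gau ha y).tsum_le_of_sum_le (sum_gau_le ha y)

lemma summable_mul_gau {a : ℝ} (ha : 0 < a) (y : Fin n → ℝ) {φ : (Fin n → ℤ) → ℝ}
    (hφ : ∀ k, |φ k| ≤ 1) : Summable fun k => φ k * gau a y k := by
  refine Summable.of_norm_bounded (summable_gau ha y) fun k => ?_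
  rw [Real.norm_eq_abs, abs_mul, abs_of_pos (gau_pos a y k)]
  exact mul_le_of_le_one_left (gau_pos a y k).le (hφ k)

lemma trunc {a : ℝ} (ha : 0 < a) (y : Fin n → ℝ) {φ : (Fin n → ℤ) → ℝ} (hφ : ∀ k, |φ k| ≤ 1)
    (Λ : Finset (Fin n → ℤ)) {B : ℝ}
    (h : ∀ k, k ∉ Λ → φ k ≠ 0 → B ≤ a * ∑ i, ((k i : ℝ) + y i) ^ 2) :
    |∑ k ∈ Λ, φ k * gau a y k - ∑' k, φ k * gau a y k| ≤
      Real.exp (-(B / 2)) * ((1 + 1 / (a / 2)) * C0) ^ n := by
  classical
  have hs := summable_mul_gau ha y hφ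
  have h1 : HasSum (fun k => if k ∈ Λ then φ k * gau a y k else 0) (∑ k ∈ Λ, φ k * gau a y k) := by
    have := hasSum_sum_of_ne_finset_zero (L := SummationFilter.unconditional _)
      (f := fun k => if k ∈ Λ then φ k * gau a y k else 0) (s := Λ) (fun k hk => by simp [hk])
    rwa [Finset.sum_congr rfl (g := fun k => φ k * gau a y k) (fun k hk => by simp [hk])] at this
  have h2 := (summable_gau (half_pos ha) y).mul_left (Real.exp (-(B / 2)))
  have hb := tsum_of_norm_bounded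
    (f := fun k => (if k ∈ Λ then φ k * gau a y k else 0) - φ k * gau a y k) h2.hasSum (by
      intro k
      have hp := mul_pos (Real.exp_pos (-(B / 2))) (gau_pos (a / 2) y k)
      by_cases hk : k ∈ Λ
      · simpa [hk] using hp.le
      · by_cases h0 : φ k = 0
        · simpa [hk, h0] using hp.le
        · have := h k hk h0
          simp only [hk, if_false, zero_sub, norm_neg, Real.norm_eq_abs, abs_mul]
          rw [abs_of_pos (gau_pos a y k)]
          refine (mul_le_of_le_one_left (gau_pos a y k).le (hφ k)).trans ?_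
          rw [gau, gau, ← Real.exp_add, Real.exp_le_exp]
          linarith)
  rw [(h1.sub hs.hasSum).tsum_eq, tsum_mul_left, Real.norm_eq_abs] at hb
  exact hb.trans (mul_le_mul_of_nonneg_left (tsum_gau_le (half_pos ha) y) (Real.exp_pos _).le)

lemma coset_le {e : Fin n → ℤ} (he : e ≠ 0) {g g' : (Fin n → ℤ) → ℝ} (hg : Summable g)
    (hg' : Summable g') {K : ℝ}
    (h : ∀ k, ∑' j : ℤ, g' (k + j • e) ≤ K * ∑' j : ℤ, g (k + j • e)) :
    ∑' k, g' k ≤ K * ∑' k, g k := by
  let Q := (Fin n → ℤ) ⧸ AddSubgroup.zmultiples e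
  let f : Q × ℤ → (Fin n → ℤ) := fun p => Quotient.out p.1 + p.2 • e
  have hmk : ∀ p : Q × ℤ, (QuotientAddGroup.mk (f p) : Q) = p.1 := by
    intro p
    rw [← QuotientAddGroup.out_eq' p.1, QuotientAddGroup.eq]
    simp only [f]
    exact ⟨-p.2, by simp⟩
  have hf : Function.Bijective f := by
    constructor
    · rintro ⟨q, j⟩ ⟨q', j'⟩ hpq
      have h1 : q = q' := (hmk (q, j)).symm.trans (by rw [hpq, hmk])
      subst h1
      have h2 : j • e = j' • e := add_left_cancel hpq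
      rw [smul_left_injective ℤ he h2]
    · intro k
      obtain ⟨⟨z, j, hj⟩, hz⟩ := QuotientAddGroup.mk_out_eq_add (AddSubgroup.zmultiples e) k
      refine ⟨(QuotientAddGroup.mk k, -j), ?_⟩
      simp only [f]
      rw [hz]
      simp only at hj
      simp [← hj]
  let E := Equiv.ofBijective f hf
  have s1 : Summable fun p => g (f p) := E.summable_iff.2 hg
  have s2 : Summable fun p => g' (f p) := E.summable_iff.2 hg'
  rw [← E.tsum_eq g, ← E.tsum_eq g']
  change ∑' p, g' (f p) ≤ K * ∑' p, g (f p)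
  rw [s1.tsum_prod, s2.tsum_prod, ← tsum_mul_left]
  exact s2.prod.tsum_le_tsum (fun q => h (Quotient.out q)) (s1.prod.mul_left K)

variable {A : Type} [AddCommGroup A] [DecidableEq A]

/-- the Gaussian sum over a fibre -/
noncomputable def fib (p : (Fin n → ℤ) →+ A) (c : A) (a : ℝ) (y : Fin n → ℝ) : ℝ :=
  ∑' k, (if p k = c then 1 else 0) * gau a y k

lemma ind_le (P : Prop) [Decidable P] : |(if P then 1 else 0 : ℝ)| ≤ 1 := by
  split_ifs <;> simp

lemma fib_nonneg (p : (Fin n → ℤ) →+ A) (c : A) (a : ℝ) (y : Fin n → ℝ) : 0 ≤ fib p c a y :=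
  tsum_nonneg fun k => mul_nonneg (by split_ifs <;> simp) (gau_pos a y k).le

lemma fib_le (p : (Fin n → ℤ) →+ A) (c : A) {a : ℝ} (ha : 0 < a) (y : Fin n → ℝ) :
    fib p c a y ≤ ((1 + 1 / a) * C0) ^ n := by
  refine le_trans ?_ (tsum_gau_le ha y)
  exact (summable_mul_gau ha y fun k => ind_le _).tsum_le_tsum
    (fun k => mul_le_of_le_one_left (gau_pos a y k).le (by split_ifs <;> simp))
    (summable_gau ha y)

lemma fib_shift (p : (Fin n → ℤ) →+ A) (ν : Fin n → ℤ) (a : ℝ) (y : Fin n → ℝ) :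
    fib p (p ν) a y = fib p 0 a (fun i => ν i + y i) := by
  rw [fib, fib, ← (Equiv.addRight ν).tsum_eq]
  refine tsum_congr fun k => ?_
  simp [gau, add_assoc]

/-- the fibre sums of `p` hardly change along the direction `e` -/
def Flat (p : (Fin n → ℤ) →+ A) (e : Fin n → ℤ) (c : ℝ) : Prop :=
  ∀ a η : ℝ, 0 < a → Real.exp (-(c / a)) ≤ η → η ≤ 1 / 5 → ∀ (y : Fin n → ℝ) (x : ℝ),
    fib p 0 a (fun i => y i + x * e i) ≤ (1 + 10 * η) * fib p 0 a y

lemma Flat.mono {p : (Fin n → ℤ) →+ A} {e : Fin n → ℤ} {c c' : ℝ} (h : Flat p e c) (hc : c' ≤ c) :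
    Flat p e c' := fun a η ha h1 h2 =>
  h a η ha (le_trans (Real.exp_le_exp.2 (neg_le_neg (div_le_div_of_nonneg_right hc ha.le))) h1) h2

lemma exists_flat (p : (Fin n → ℤ) →+ A) {e : Fin n → ℤ} (hp : p e = 0) :
    ∃ c, 0 < c ∧ Flat p e c := by
  by_cases he : e = 0
  · refine ⟨1, one_pos, fun a η _ h1 _ y x => ?_⟩
    have h0 : 0 < η := (Real.exp_pos _).trans_le h1
    subst he
    simp only [Pi.zero_apply, Int.cast_zero, mul_zero, add_zero]
    exact le_mul_of_one_le_left (fib_nonneg p 0 a y) (by linarith)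
  · set E : ℝ := ∑ i, (e i : ℝ) ^ 2 with hE
    have hE0 : 0 < E := by
      obtain ⟨i, hi⟩ := Function.ne_iff.1 he
      have hi' : (e i : ℝ) ≠ 0 := by exact_mod_cast hi
      exact Finset.sum_pos' (fun j _ => sq_nonneg _) ⟨i, Finset.mem_univ _, by positivity⟩
    refine ⟨π ^ 2 / E, by positivity, fun a η ha h1 h2 y x => ?_⟩
    have h0 : 0 < η := (Real.exp_pos _).trans_le h1
    refine coset_le he (summable_mul_gau ha _ fun k => ind_le _)
      (summable_mul_gau ha _ fun k => ind_le _) fun k => ?_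
    set D : ℝ := ∑ i, ((k i : ℝ) + y i) * e i with hD
    set W : ℝ := ∑ i, ((k i : ℝ) + y i) ^ 2 with hW
    have id : ∀ (x : ℝ) (j : ℤ), gau a (fun i => y i + x * e i) (k + j • e) =
        Real.exp (-(a * (W - D ^ 2 / E))) * Real.exp (-(a * E * ((j : ℝ) + (D / E + x)) ^ 2)) := by
      intro x j
      rw [gau, ← Real.exp_add]
      congr 1
      have : ∑ i, (((k + j • e) i : ℝ) + (y i + x * e i)) ^ 2 =
          W + 2 * (j + x) * D + (j + x) ^ 2 * E := by
        rw [hW, hD, hE, Finset.mul_sum, Finset.mul_sum, ← Finset.sum_add_distrib,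
          ← Finset.sum_add_distrib]
        refine Finset.sum_congr rfl fun i _ => ?_
        simp only [Pi.add_apply, Pi.smul_apply, smul_eq_mul]
        push_cast
        ring
      rw [this]
      field_simp
      ring
    have id0 := id 0
    simp only [zero_mul, add_zero] at id0
    have hpk : ∀ j : ℤ, p (k + j • e) = p k := by
      intro j; rw [map_add, map_zsmul, hp, smul_zero, add_zero]
    simp only [hpk, id, id0, tsum_mul_left]
    have hr := th_ratio (mul_pos ha hE0) (η := η) (by rwa [mul_comm, ← div_div]) h2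
      (D / E + x) (D / E)
    rw [th, th] at hr
    have hi : (0 : ℝ) ≤ if p k = 0 then 1 else 0 := by split_ifs <;> simp
    calc _ ≤ (if p k = 0 then 1 else 0) * (Real.exp (-(a * (W - D ^ 2 / E))) * ((1 + 10 * η) *
          ∑' j : ℤ, Real.exp (-(a * E * ((j : ℝ) + D / E) ^ 2)))) := by gcongr
      _ = _ := by ring

end Pool.Agent.MP_caba0b_al.H53
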