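import Pool.Agent.MP_caba0b_al.H43.Iface
import Pool.Agent.MP_caba0b_al.H53.Lattice

/-! The truncated Gaussian restricts to a multiple of the truncated Gaussian. -/

namespace Pool.Agent.MP_caba0b_al.H53

open Pool.Agent.MP_caba0b_al.H43

/-- `push` as a homomorphism -/
def pushH (S : Side) : Wt S.n →+ GaussianInt where
  toFun := S.push
  map_zero' := by simp [Side.push]
  map_add' x y := by simp [Side.push, add_mul, Finset.sum_add_distrib]

/-- `pb` as a homomorphism -/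
def pbH (S : Side) : Wt S.n →+ ZMod 4 where
  toFun := S.pb
  map_zero' := by simp [Side.pb]
  map_add' x y := by simp [Side.pb, add_mul, Finset.sum_add_distrib]

lemma push_coe (S : Side) (ν : Wt S.n) : ((S.push ν : GaussianInt) : ℂ) = ∑ i, ν i * (S.a i : ℂ) := by
  rw [Side.push, map_sum]
  exact Finset.sum_congr rfl fun i _ => by rw [map_zsmul, zsmul_eq_mul]

lemma push_re (S : Side) (ν : Wt S.n) :
    ((S.push ν).re : ℝ) = ∑ i, (ν i : ℝ) * ((S.a i).re : ℝ) := by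
  rw [GaussianInt.intCast_re, push_coe, Complex.re_sum]
  exact Finset.sum_congr rfl fun i _ => by simp

lemma push_im (S : Side) (ν : Wt S.n) :
    ((S.push ν).im : ℝ) = ∑ i, (ν i : ℝ) * ((S.a i).im : ℝ) := by
  rw [GaussianInt.intCast_im, push_coe, Complex.im_sum]
  exact Finset.sum_congr rfl fun i _ => by simp

lemma tight_rr (S : Side) : ∑ i, ((S.a i).re : ℝ) * ((S.a i).re : ℝ) = S.N := by
  have := congrArg Complex.re (S.tight 1)
  rw [Complex.re_sum] at this
  simpa using this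

lemma tight_ri (S : Side) : ∑ i, ((S.a i).re : ℝ) * ((S.a i).im : ℝ) = 0 := by
  have := congrArg Complex.im (S.tight 1)
  rw [Complex.im_sum] at this
  simpa using this

lemma tight_ii (S : Side) : ∑ i, ((S.a i).im : ℝ) * ((S.a i).im : ℝ) = S.N := by
  have := congrArg Complex.im (S.tight Complex.I)
  rw [Complex.im_sum] at this
  simpa using this

lemma norm_cast_eq (μ : GaussianInt) : (μ.norm : ℝ) = (μ.re : ℝ) ^ 2 + (μ.im : ℝ) ^ 2 := by
  rw [Zsqrtd.norm_def]; push_cast; ring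

/-- the centre of the fibre over `μ` -/
noncomputable def ys (S : Side) (μ : GaussianInt) (i : Fin S.n) : ℝ :=
  -((μ.re * (S.a i).re + μ.im * (S.a i).im) / S.N)

lemma quad_eq (S : Side) (ν : Wt S.n) :
    S.N * ∑ i, ((ν i : ℝ) + ys S (S.push ν) i) ^ 2 = S.N * nsq ν - ((S.push ν).norm : ℝ) := by
  have hN : (S.N : ℝ) ≠ 0 := by exact_mod_cast S.hN.ne'
  set x : ℝ := ((S.push ν).re : ℝ) with hx
  set y : ℝ := ((S.push ν).im : ℝ) with hy
  have : ∑ i, ((ν i : ℝ) + ys S (S.push ν) i) ^ 2 =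
      ∑ i, (ν i : ℝ) ^ 2 - 2 * x / S.N * ∑ i, (ν i : ℝ) * ((S.a i).re : ℝ)
        - 2 * y / S.N * ∑ i, (ν i : ℝ) * ((S.a i).im : ℝ)
        + (x / S.N) ^ 2 * ∑ i, ((S.a i).re : ℝ) * ((S.a i).re : ℝ)
        + 2 * x * y / S.N ^ 2 * ∑ i, ((S.a i).re : ℝ) * ((S.a i).im : ℝ)
        + (y / S.N) ^ 2 * ∑ i, ((S.a i).im : ℝ) * ((S.a i).im : ℝ) := by
    simp only [Finset.mul_sum, ← Finset.sum_add_distrib, ← Finset.sum_sub_distrib]
    refine Finset.sum_congr rfl fun i _ => ?_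
    rw [ys, ← hx, ← hy]
    field_simp
    ring
  rw [this, ← push_re, ← push_im, tight_rr, tight_ri, tight_ii, norm_cast_eq, nsq, ← hx, ← hy]
  field_simp
  ring

lemma one_le_fib {n : ℕ} {A : Type} [AddCommGroup A] [DecidableEq A] (p : (Fin n → ℤ) →+ A)
    {a : ℝ} (ha : 0 < a) : 1 ≤ fib p 0 a 0 := by
  have := (summable_mul_gau ha (0 : Fin n → ℝ)
    (φ := fun k => if p k = 0 then 1 else 0) fun k => ind_le _).le_tsum 0
    (fun k _ => mul_nonneg (by split_ifs <;> simp) (gau_pos a 0 k).le)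
  simpa [gau, fib] using this

lemma two_flat {n : ℕ} {A : Type} [AddCommGroup A] [DecidableEq A] {p : (Fin n → ℤ) →+ A}
    {e e' : Fin n → ℤ} {c : ℝ} (h : Flat p e c) (h' : Flat p e' c) {a : ℝ} (ha : 0 < a)
    (x x' : ℝ) : |fib p 0 a (fun i => x * e i + x' * e' i) - fib p 0 a 0| ≤
      40 * Real.exp (-(c / a)) * (((1 + 1 / a) * C0) ^ n + 1) * fib p 0 a 0 := by
  set η := Real.exp (-(c / a)) with hη
  have h0 : 0 < η := Real.exp_pos _
  have hZ := one_le_fib p ha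
  have hF0 := fib_nonneg p 0 a (fun i => x * e i + x' * e' i)
  have hF := fib_le p 0 ha (fun i => x * e i + x' * e' i)
  set T := ((1 + 1 / a) * C0) ^ n
  have hT : 0 ≤ T := hF0.trans hF
  rcases le_or_gt η (1 / 5) with h5 | h5
  · have a1 := h a η ha le_rfl h5 0 x
    have a2 := h' a η ha le_rfl h5 (fun i => x * e i) x'
    have b1 := h a η ha le_rfl h5 (fun i => x * e i) (-x)
    have b2 := h' a η ha le_rfl h5 (fun i => x * e i + x' * e' i) (-x')
    simp only [Pi.zero_apply, zero_add, neg_mul, add_neg_cancel, add_neg_cancel_right] at a1 b1 b2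
    change fib p 0 a 0 ≤ _ at b1
    have hG0 := fib_nonneg p 0 a (fun i => x * e i)
    set F := fib p 0 a (fun i => x * e i + x' * e' i)
    set G := fib p 0 a (fun i => x * e i)
    set Z := fib p 0 a 0
    have u : F ≤ (1 + 40 * η) * Z := by
      have : (1 + 10 * η) * G ≤ (1 + 10 * η) * ((1 + 10 * η) * Z) := by gcongr
      have : (1 + 10 * η) * (1 + 10 * η) ≤ 1 + 40 * η := by nlinarith
      nlinarith
    have l : Z ≤ (1 + 40 * η) * F := by
      have : (1 + 10 * η) * G ≤ (1 + 10 * η) * ((1 + 10 * η) * F) := by gcongr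
      have : (1 + 10 * η) * (1 + 10 * η) ≤ 1 + 40 * η := by nlinarith
      nlinarith
    have w : 40 * η * Z ≤ 40 * η * (T + 1) * Z := by
      have : 0 ≤ 40 * η * T * Z := by positivity
      nlinarith
    refine le_trans ?_ w
    rw [abs_le]
    constructor
    · rcases le_total F Z with hh | hh
      · nlinarith
      · nlinarith
    · nlinarith
  · set F := fib p 0 a (fun i => x * e i + x' * e' i)
    set Z := fib p 0 a 0
    have w : (T + 1) * Z ≤ 40 * η * (T + 1) * Z := by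
      have : 0 ≤ (T + 1) * Z := by positivity
      nlinarith
    refine le_trans ?_ w
    rw [abs_le]
    constructor <;> nlinarith

lemma inl_est (S : Side) : ∃ c, 0 < c ∧ ∀ a : ℝ, 0 < a → ∀ μ : GaussianInt,
    |fib (pushH S) μ a (ys S μ) - fib (pushH S) 0 a 0| ≤
      40 * Real.exp (-(c / a)) * (((1 + 1 / a) * C0) ^ S.n + 1) * fib (pushH S) 0 a 0 := by
  have hN : (S.N : ℝ) ≠ 0 := by exact_mod_cast S.hN.ne'
  obtain ⟨ν1, h1⟩ := S.surj 1
  obtain ⟨ν2, h2⟩ := S.surj ⟨0, 1⟩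
  change pushH S ν1 = 1 at h1
  change pushH S ν2 = ⟨0, 1⟩ at h2
  have p1 : pushH S (fun i => (S.a i).re) = S.N := by
    change S.push _ = _
    ext
    · rw [← Int.cast_inj (α := ℝ), push_re, tight_rr]; simp
    · rw [← Int.cast_inj (α := ℝ), push_im, tight_ri]; simp
  have p2 : pushH S (fun i => (S.a i).im) = S.N * ⟨0, 1⟩ := by
    change S.push _ = _
    ext
    · rw [← Int.cast_inj (α := ℝ), push_re]
      simp only [mul_comm ((S.a _).im : ℝ), tight_ri]; simp
    · rw [← Int.cast_inj (α := ℝ), push_im, tight_ii]; simp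
  obtain ⟨c1, hc1, f1⟩ := exists_flat (pushH S) (e := S.N • ν1 - fun i => (S.a i).re)
    (by rw [map_sub, map_nsmul, h1, p1]; simp)
  obtain ⟨c2, hc2, f2⟩ := exists_flat (pushH S) (e := S.N • ν2 - fun i => (S.a i).im)
    (by rw [map_sub, map_nsmul, h2, p2]; simp)
  refine ⟨min c1 c2, lt_min hc1 hc2, fun a ha μ => ?_⟩
  have key := two_flat (f1.mono (min_le_left c1 c2)) (f2.mono (min_le_right c1 c2)) ha
    (μ.re / S.N) (μ.im / S.N)
  have hμ : pushH S (μ.re • ν1 + μ.im • ν2) = μ := by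
    rw [map_add, map_zsmul, map_zsmul, h1, h2]
    ext <;> simp
  have : fib (pushH S) μ a (ys S μ) = fib (pushH S) 0 a
      (fun i => (μ.re : ℝ) / S.N * ((S.N • ν1 - fun i => (S.a i).re) i : ℤ)
        + (μ.im : ℝ) / S.N * ((S.N • ν2 - fun i => (S.a i).im) i : ℤ)) := by
    conv_lhs => rw [← hμ, fib_shift, hμ]
    congr 1
    funext i
    simp only [ys, Pi.add_apply, Pi.smul_apply, Pi.sub_apply, smul_eq_mul, nsmul_eq_mul,
      Pi.mul_apply, Pi.natCast_apply]
    push_cast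
    field_simp
    ring
  rw [this]
  exact key

lemma inr_est (S : Side) : ∃ c, 0 < c ∧ ∀ a : ℝ, 0 < a → ∀ z : ZMod 4,
    |∑' k, ((if S.pb k = z then 1 else 0) - 1 / 4 : ℝ) * gau a 0 k| ≤
      10 * Real.exp (-(c / a)) * ((1 + 1 / a) * C0) ^ S.n := by
  obtain ⟨i, u, hu⟩ := S.odd
  have hs : ∀ m : ℤ, pbH S (Pi.single i m) = m * S.b i := by
    intro m
    change S.pb _ = _
    rw [Side.pb, Finset.sum_eq_single i (fun j _ hj => by simp [hj]) (by simp)]
    simp
  obtain ⟨c, hc, fl⟩ := exists_flat (pbH S) (e := Pi.single i 4) (by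
    rw [hs]
    have : ((4 : ℤ) : ZMod 4) = 0 := by decide
    rw [this, zero_mul])
  refine ⟨c, hc, fun a ha z => ?_⟩
  set η := Real.exp (-(c / a)) with hη
  have h0 : 0 < η := Real.exp_pos _
  set T := ((1 + 1 / a) * C0) ^ S.n with hT
  have hsur : ∀ w : ZMod 4, ∃ m : ℤ, pbH S (Pi.single i m) = w := by
    intro w
    obtain ⟨m, hm⟩ := ZMod.intCast_surjective (w * ((u⁻¹ : (ZMod 4)ˣ) : ZMod 4))
    exact ⟨m, by rw [hs, hm, ← hu, mul_assoc, Units.inv_mul, mul_one]⟩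
  have one : ∀ w w' : ZMod 4, fib (pbH S) w a 0 - fib (pbH S) w' a 0 ≤ 10 * η * T := by
    intro w w'
    have n1 := fib_nonneg (pbH S) w' a 0
    have l1 := fib_le (pbH S) w ha 0
    have l2 := fib_le (pbH S) w' ha 0
    rw [← hT] at l1 l2
    rcases le_or_gt η (1 / 5) with h5 | h5
    · obtain ⟨m, rfl⟩ := hsur w
      obtain ⟨m', rfl⟩ := hsur w'
      have k := fl a η ha le_rfl h5 (fun j => (Pi.single i m' : Wt S.n) j + (0 : Fin S.n → ℝ) j)
        ((m - m') / 4)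
      rw [← fib_shift] at k
      have : fib (pbH S) (pbH S (Pi.single i m)) a 0 = fib (pbH S) 0 a (fun j =>
          (Pi.single i m' : Wt S.n) j + (0 : Fin S.n → ℝ) j +
            ((m : ℝ) - m') / 4 * (Pi.single i 4 : Wt S.n) j) := by
        rw [fib_shift]
        congr 1
        funext j
        by_cases hj : j = i
        · subst hj; simp
        · simp [hj]
      rw [this]
      nlinarith
    · nlinarith
  have two : ∀ w : ZMod 4, |fib (pbH S) z a 0 - fib (pbH S) w a 0| ≤ 10 * η * T := by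
    intro w
    rw [abs_le]
    constructor <;> linarith [one z w, one w z]
  have hsum : HasSum (fun k => ((if S.pb k = z then 1 else 0) - 1 / 4 : ℝ) * gau a 0 k)
      (∑ w : ZMod 4, 1 / 4 * (fib (pbH S) z a 0 - fib (pbH S) w a 0)) := by
    have := hasSum_sum (s := Finset.univ) (fun (w : ZMod 4) _ =>
      (((summable_mul_gau ha 0 (φ := fun k => if pbH S k = z then 1 else 0)
        fun k => ind_le _).hasSum).sub
      ((summable_mul_gau ha 0 (φ := fun k => if pbH S k = w then 1 else 0)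
        fun k => ind_le _).hasSum)).mul_left (1 / 4))
    refine this.congr_fun fun k => ?_
    change _ = ∑ w : ZMod 4, 1 / 4 * ((if S.pb k = z then 1 else 0) * gau a 0 k -
      (if S.pb k = w then 1 else 0) * gau a 0 k)
    rw [← Finset.mul_sum, Finset.sum_sub_distrib, ← Finset.sum_mul, ← Finset.sum_mul]
    simp only [Finset.sum_const, Finset.card_univ, ZMod.card, Finset.sum_ite_eq, Finset.mem_univ,
      if_true, nsmul_eq_mul]
    push_cast
    ring
  rw [hsum.tsum_eq]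
  refine (Finset.abs_sum_le_sum_abs _ _).trans ?_
  refine (Finset.sum_le_sum (g := fun _ => 1 / 4 * (10 * η * T)) fun w _ => ?_).trans_eq ?_
  · rw [abs_mul, abs_of_pos (by norm_num : (0 : ℝ) < 1 / 4)]
    exact mul_le_mul_of_nonneg_left (two w) (by norm_num)
  · simp only [Finset.sum_const, Finset.card_univ, ZMod.card, nsmul_eq_mul]
    push_cast
    ring

lemma card_le {P : Finset GaussianInt} {R : ℝ} (hR : 1 ≤ R) (h : ∀ μ ∈ P, (μ.norm : ℝ) ≤ R ^ 2) :
    (P.card : ℝ) ≤ 9 * R ^ 2 := by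
  have hb : ∀ x : ℤ, (x : ℝ) ^ 2 ≤ R ^ 2 → x ∈ Finset.Icc (-⌊R⌋) ⌊R⌋ := by
    intro x hx
    have := abs_le.1 (abs_le_of_sq_le_sq hx (by linarith))
    rw [Finset.mem_Icc]
    constructor
    · have : -x ≤ ⌊R⌋ := Int.le_floor.2 (by push_cast; linarith [this.1])
      linarith
    · exact Int.le_floor.2 this.2
  have h1 : P.card ≤ (Finset.Icc (-⌊R⌋) ⌊R⌋ ×ˢ Finset.Icc (-⌊R⌋) ⌊R⌋).card := by
    refine Finset.card_le_card_of_injOn (fun μ => (μ.re, μ.im)) (fun μ hμ => ?_)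
      (fun μ _ μ' _ hh => ?_)
    · have := h μ hμ
      rw [norm_cast_eq] at this
      simp only [Finset.coe_product, Set.mem_prod, Finset.mem_coe]
      exact ⟨hb _ (by nlinarith [sq_nonneg (μ.im : ℝ)]), hb _ (by nlinarith [sq_nonneg (μ.re : ℝ)])⟩
    · exact Zsqrtd.ext (congrArg Prod.fst hh) (congrArg Prod.snd hh)
  have h2 : ((Finset.Icc (-⌊R⌋) ⌊R⌋).card : ℝ) ≤ 3 * R := by
    have f0 : 0 ≤ ⌊R⌋ := Int.floor_nonneg.2 (by linarith)
    have : ((Finset.Icc (-⌊R⌋) ⌊R⌋).card : ℤ) = ⌊R⌋ + 1 - -⌊R⌋ :=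
      Int.card_Icc_of_le _ _ (by linarith)
    have e : ((Finset.Icc (-⌊R⌋) ⌊R⌋).card : ℝ) = ⌊R⌋ + 1 - -⌊R⌋ := by exact_mod_cast this
    rw [e]
    linarith [Int.floor_le R]
  rw [Finset.card_product] at h1
  have h3 : (P.card : ℝ) ≤ (Finset.Icc (-⌊R⌋) ⌊R⌋).card * (Finset.Icc (-⌊R⌋) ⌊R⌋).card := by
    exact_mod_cast h1
  have h4 : (0 : ℝ) ≤ (Finset.Icc (-⌊R⌋) ⌊R⌋).card := by positivity
  nlinarith

lemma Phi_inl (S : Side) (τ : ℝ) (Λ : Finset (Wt S.n)) (μ : GaussianInt) :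
    S.Phi (S.gaussG τ Λ) (Sum.inl μ) =
      ∑ ν ∈ Λ, (if S.push ν = μ then 1 else 0) * Real.exp (-(τ * (S.N * nsq ν))) := by
  rw [Side.gaussG, map_sum, Finsupp.finsetSum_apply]
  refine Finset.sum_congr rfl fun ν _ => ?_
  simp [Side.Phi, Side.phi, Finsupp.single_apply]

lemma Phi_inr (S : Side) (τ : ℝ) (Λ : Finset (Wt S.n)) (z : ZMod 4) :
    S.Phi (S.gaussG τ Λ) (Sum.inr z) =
      ∑ ν ∈ Λ, ((if S.pb ν = z then 1 else 0) - 1 / 4 : ℝ) * Real.exp (-(τ * (S.N * nsq ν))) := by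
  rw [Side.gaussG, map_sum, Finsupp.finsetSum_apply]
  refine Finset.sum_congr rfl fun ν _ => ?_
  simp [Side.Phi, Side.phi, Finsupp.single_apply, mul_comm]

lemma H_inl (τ : ℝ) (P : Finset GaussianInt) (μ : GaussianInt) :
    gaussH τ P (Sum.inl μ) = if μ ∈ P then Real.exp (-(τ * (μ.norm : ℝ))) else 0 := by
  rw [gaussH, Finsupp.finsetSum_apply]
  simp [Finsupp.single_apply]

lemma H_inr (τ : ℝ) (P : Finset GaussianInt) (z : ZMod 4) : gaussH τ P (Sum.inr z) = 0 := by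
  rw [gaussH, Finsupp.finsetSum_apply]
  simp

theorem gauss : GaussStmt := by
  intro S κ hκ
  obtain ⟨c1, hc1, hl⟩ := inl_est S
  obtain ⟨c2, hc2, hr⟩ := inr_est S
  have hN1 : (1 : ℝ) ≤ S.N := by exact_mod_cast S.hN
  have hN : (0 : ℝ) < S.N := by linarith
  have hC0 := two_le_C0
  set K : ℝ := (3 * C0) ^ S.n with hK
  have hK1 : 1 ≤ K := one_le_pow₀ (by linarith)
  set c := min (min (c1 / S.N) (c2 / S.N)) (κ ^ 2 / 2) with hc
  refine ⟨c, 1000 * K, S.n + 4, by positivity, fun r P Λ hr1 hA => ?_⟩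
  have hr0 : 0 < r := by linarith
  set a : ℝ := r⁻¹ * S.N with ha
  have ha0 : 0 < a := by positivity
  have hia : 1 / a ≤ r := by
    rw [div_le_iff₀ ha0, ha, ← mul_assoc, mul_inv_cancel₀ hr0.ne']; linarith
  set T : ℝ := K * r ^ S.n with hT
  have hT1 : 1 ≤ T := one_le_mul_of_one_le_of_one_le hK1 (one_le_pow₀ hr1)
  have t1 : ((1 + 1 / a) * C0) ^ S.n ≤ T := by
    rw [hT, hK, ← mul_pow]
    exact pow_le_pow_left₀ (by positivity) (by nlinarith) _
  have t2 : ((1 + 1 / (a / 2)) * C0) ^ S.n ≤ T := by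
    rw [hT, hK, ← mul_pow]
    have : 1 / (a / 2) = 2 * (1 / a) := by field_simp
    rw [this]
    exact pow_le_pow_left₀ (by positivity) (by nlinarith) _
  set ε := Real.exp (-(c * r)) with hε
  have hε0 : 0 < ε := Real.exp_pos _
  have e1 : Real.exp (-(c1 / a)) ≤ ε := by
    rw [hε, Real.exp_le_exp, neg_le_neg_iff]
    have : c1 / a = c1 / S.N * r := by rw [ha]; field_simp
    rw [this]
    exact mul_le_mul_of_nonneg_right ((min_le_left _ _).trans (min_le_left _ _)) hr0.le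
  have e2 : Real.exp (-(c2 / a)) ≤ ε := by
    rw [hε, Real.exp_le_exp, neg_le_neg_iff]
    have : c2 / a = c2 / S.N * r := by rw [ha]; field_simp
    rw [this]
    exact mul_le_mul_of_nonneg_right ((min_le_left _ _).trans (min_le_right _ _)) hr0.le
  have e3 : Real.exp (-(r⁻¹ * (κ * r ^ 2) ^ 2 / 2)) ≤ ε := by
    rw [hε, Real.exp_le_exp, neg_le_neg_iff]
    have : r⁻¹ * (κ * r ^ 2) ^ 2 / 2 = κ ^ 2 / 2 * (r * r ^ 2) := by field_simp
    rw [this]
    exact mul_le_mul (min_le_right _ _) (le_mul_of_one_le_right hr0.le (one_le_pow₀ hr1))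
      hr0.le (by positivity)
  set Z := fib (pushH S) 0 a 0 with hZ
  have hZ1 : 1 ≤ Z := one_le_fib _ ha0
  have hZ0 : 0 < Z := by linarith
  have hZi : Z⁻¹ ≤ 1 := inv_le_one_of_one_le₀ hZ1
  have hr4 : 1 ≤ r ^ 4 := one_le_pow₀ hr1
  have hfin : 1000 * K * r ^ (S.n + 4) = 1000 * T * r ^ 4 := by rw [hT, pow_add]; ring
  refine ⟨Z, hZ1, ?_, ?_⟩
  · have := (fib_le (pushH S) 0 ha0 0).trans t1
    rw [hfin]
    nlinarith
  set x : X := Z⁻¹ • S.Phi (S.gaussG r⁻¹ Λ) - gaussH r⁻¹ P with hx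
  have hsupp : x.support ⊆ P.disjSum Finset.univ := by
    rintro (μ | z) hy
    · rw [Finset.inl_mem_disjSum]
      by_contra hμ
      refine Finsupp.mem_support_iff.1 hy ?_
      rw [hx, Finsupp.sub_apply, Finsupp.smul_apply, Phi_inl, H_inl, if_neg hμ,
        Finset.sum_eq_zero, smul_zero, sub_zero]
      intro ν hν
      rw [if_neg, zero_mul]
      rintro rfl
      exact hμ (hA.pushP ν hν)
    · simp
  have b1 : ∀ μ ∈ P, |x (Sum.inl μ)| * Real.exp (r⁻¹ * (μ.norm : ℝ)) ≤ 81 * T * ε := by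
    intro μ hμ
    have q : ∀ ν, S.push ν = μ → a * ∑ i, ((ν i : ℝ) + ys S μ i) ^ 2 =
        r⁻¹ * (S.N * nsq ν - (μ.norm : ℝ)) := by
      rintro ν rfl
      rw [← quad_eq, ha, mul_assoc]
    have id : |x (Sum.inl μ)| * Real.exp (r⁻¹ * (μ.norm : ℝ)) =
        Z⁻¹ * |∑ ν ∈ Λ, (if pushH S ν = μ then 1 else 0) * gau a (ys S μ) ν - Z| := by
      rw [← abs_of_pos (Real.exp_pos (r⁻¹ * (μ.norm : ℝ))), ← abs_mul,
        ← abs_of_pos (inv_pos.2 hZ0), ← abs_mul]
      congr 1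
      rw [hx, Finsupp.sub_apply, Finsupp.smul_apply, Phi_inl, H_inl, if_pos hμ, smul_eq_mul,
        sub_mul, ← Real.exp_add, neg_add_cancel, Real.exp_zero, mul_sub, inv_mul_cancel₀ hZ0.ne',
        mul_assoc, Finset.sum_mul]
      congr 2
      refine Finset.sum_congr rfl fun ν _ => ?_
      change _ = (if S.push ν = μ then 1 else 0) * _
      by_cases h : S.push ν = μ
      · rw [if_pos h, one_mul, one_mul, gau, q ν h, ← Real.exp_add]
        congr 1
        ring
      · simp [h]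
    have tr := trunc ha0 (ys S μ) (φ := fun k => if pushH S k = μ then 1 else 0)
      (fun k => ind_le _) Λ (B := r⁻¹ * (κ * r ^ 2) ^ 2) (by
        intro k hk h0
        have h : S.push k = μ := by
          by_contra h
          exact h0 (if_neg h)
        rw [q k h]
        refine mul_le_mul_of_nonneg_left ?_ (by positivity)
        by_contra hlt
        exact hk (hA.near k (h ▸ hμ) (by rw [h]; linarith)))
    change |_ - fib (pushH S) μ a (ys S μ)| ≤ _ at tr
    have l := hl a ha0 μ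
    rw [← hZ] at l
    have tr' : Real.exp (-(r⁻¹ * (κ * r ^ 2) ^ 2 / 2)) * ((1 + 1 / (a / 2)) * C0) ^ S.n ≤
        ε * T * Z := by
      refine le_trans (mul_le_mul e3 t2 (by positivity) hε0.le) ?_
      exact le_mul_of_one_le_right (by positivity) hZ1
    have l' : 40 * Real.exp (-(c1 / a)) * (((1 + 1 / a) * C0) ^ S.n + 1) * Z ≤
        40 * ε * (2 * T) * Z := by
      gcongr
      linarith
    have tri := abs_sub_le (∑ ν ∈ Λ, (if pushH S ν = μ then 1 else 0) * gau a (ys S μ) ν)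
      (fib (pushH S) μ a (ys S μ)) Z
    rw [id, ← div_eq_inv_mul, div_le_iff₀ hZ0]
    linarith
  have b2 : ∀ z : ZMod 4, |x (Sum.inr z)| ≤ 11 * T * ε := by
    intro z
    have g0 : ∀ ν : Wt S.n, a * ∑ i, ((ν i : ℝ) + (0 : Fin S.n → ℝ) i) ^ 2 =
        r⁻¹ * (S.N * nsq ν) := by
      intro ν
      simp [nsq, ha, mul_assoc]
    have id : x (Sum.inr z) =
        Z⁻¹ * ∑ ν ∈ Λ, ((if S.pb ν = z then 1 else 0) - 1 / 4 : ℝ) * gau a 0 ν := by
      rw [hx, Finsupp.sub_apply, Finsupp.smul_apply, Phi_inr, H_inr, sub_zero, smul_eq_mul]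
      simp only [gau, g0]
    have tr := trunc ha0 0 (φ := fun k => ((if S.pb k = z then 1 else 0) - 1 / 4 : ℝ))
      (fun k => by split_ifs <;> norm_num [abs_le]) Λ (B := r⁻¹ * (κ * r ^ 2) ^ 2) (by
        intro k hk _
        rw [g0]
        refine mul_le_mul_of_nonneg_left ?_ (by positivity)
        by_contra hlt
        exact hk (hA.small k (by linarith)))
    have l := hr a ha0 z
    have tr' : Real.exp (-(r⁻¹ * (κ * r ^ 2) ^ 2 / 2)) * ((1 + 1 / (a / 2)) * C0) ^ S.n ≤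
        ε * T := mul_le_mul e3 t2 (by positivity) hε0.le
    have l' : 10 * Real.exp (-(c2 / a)) * ((1 + 1 / a) * C0) ^ S.n ≤ 10 * ε * T := by gcongr
    have tri := abs_sub_le (∑ ν ∈ Λ, ((if S.pb ν = z then 1 else 0) - 1 / 4 : ℝ) * gau a 0 ν)
      (∑' k, ((if S.pb k = z then 1 else 0) - 1 / 4 : ℝ) * gau a 0 k) 0
    rw [sub_zero, sub_zero] at tri
    rw [id, abs_mul, abs_of_pos (inv_pos.2 hZ0)]
    refine (mul_le_of_le_one_left (abs_nonneg _) hZi).trans ?_
    linarith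
  have hc := card_le (one_le_pow₀ hr1) hA.ballP
  rw [nrm, wn_eq_sum x hsupp, Finset.sum_disjSum]
  simp only [Sum.elim_inl, Sum.elim_inr, mul_one]
  have s1 := Finset.sum_le_card_nsmul P _ _ b1
  have s2 := Finset.sum_le_card_nsmul Finset.univ _ _ (fun z _ => b2 z)
  rw [nsmul_eq_mul] at s1 s2
  rw [Finset.card_univ, ZMod.card] at s2
  have hTe : 0 < T * ε := by positivity
  have s3 : (P.card : ℝ) * (81 * T * ε) ≤ 9 * (r ^ 2) ^ 2 * (81 * T * ε) :=
    mul_le_mul_of_nonneg_right hc (by positivity)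
  rw [hfin]
  push_cast at s2
  nlinarith

end Pool.Agent.MP_caba0b_al.H53
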