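import Mathlib

/-! One-dimensional theta sums and their dependence on the shift. -/

namespace Pool.Agent.MP_caba0b_al.H53

open Real

/-- the shifted theta sum -/
noncomputable def th (β s : ℝ) : ℝ := ∑' j : ℤ, Real.exp (-(β * ((j : ℝ) + s) ^ 2))

/-- a universal constant -/
noncomputable def C0 : ℝ := ∑' j : ℤ, 2 / (1 + (j : ℝ) ^ 2)

lemma summable_C0 : Summable fun j : ℤ => 2 / (1 + (j : ℝ) ^ 2) := by
  have h := (Real.summable_one_div_int_pow (p := 2)).2 (by norm_num)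
  refine Summable.of_norm_bounded_eventually (h.mul_left 2) ?_
  have : ∀ᶠ j : ℤ in Filter.cofinite, j ≠ 0 := Filter.eventually_cofinite_ne 0
  filter_upwards [this] with j hj
  have h0 : (0 : ℝ) < (j : ℝ) ^ 2 := by positivity
  rw [Real.norm_eq_abs, abs_of_nonneg (by positivity), mul_one_div]
  exact div_le_div_of_nonneg_left (by norm_num) h0 (by linarith)

lemma two_le_C0 : 2 ≤ C0 := by
  have := summable_C0.le_tsum 0 (fun j _ => by positivity)
  simpa [C0] using this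

lemma term_le {β : ℝ} (hβ : 0 < β) (s : ℝ) (j : ℤ) :
    Real.exp (-(β * ((j : ℝ) + s) ^ 2)) ≤
      (1 + 1 / β) * (2 / (1 + ((j + round s : ℤ) : ℝ) ^ 2)) := by
  set t : ℝ := (j : ℝ) + s with ht
  have h1 : Real.exp (-(β * t ^ 2)) ≤ 1 / (1 + β * t ^ 2) := by
    rw [Real.exp_neg, one_div]
    exact inv_anti₀ (by positivity) (by linarith [Real.add_one_le_exp (β * t ^ 2)])
  have h2 : 1 / (1 + β * t ^ 2) ≤ (1 + 1 / β) * (1 / (1 + t ^ 2)) := by
    rw [mul_one_div, div_le_div_iff₀ (by positivity) (by positivity)]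
    have : (1 + 1 / β) * (1 + β * t ^ 2) = 1 + β * t ^ 2 + 1 / β + t ^ 2 := by
      field_simp; ring
    rw [this]
    have : 0 < 1 / β := by positivity
    nlinarith [sq_nonneg t]
  have h3 : 1 / (1 + t ^ 2) ≤ 2 / (1 + ((j + round s : ℤ) : ℝ) ^ 2) := by
    rw [div_le_div_iff₀ (by positivity) (by positivity)]
    have a := abs_le.1 (abs_sub_round s)
    have e : ((j + round s : ℤ) : ℝ) = t - (s - round s) := by push_cast; rw [ht]; ring
    rw [e]
    nlinarith [sq_nonneg (t + (s - round s)), a.1, a.2]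
  exact h1.trans (h2.trans (mul_le_mul_of_nonneg_left h3 (by positivity)))

lemma summable_shift (m : ℤ) : Summable fun j : ℤ => 2 / (1 + ((j + m : ℤ) : ℝ) ^ 2) :=
  (Equiv.addRight m).summable_iff.2 summable_C0

lemma summable_th {β : ℝ} (hβ : 0 < β) (s : ℝ) :
    Summable fun j : ℤ => Real.exp (-(β * ((j : ℝ) + s) ^ 2)) :=
  Summable.of_nonneg_of_le (fun _ => (Real.exp_pos _).le) (term_le hβ s)
    ((summable_shift (round s)).mul_left _)

lemma th_le {β : ℝ} (hβ : 0 < β) (s : ℝ) : th β s ≤ (1 + 1 / β) * C0 := by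
  refine ((summable_th hβ s).tsum_le_tsum (term_le hβ s)
    ((summable_shift (round s)).mul_left _)).trans_eq ?_
  rw [tsum_mul_left]
  congr 1
  exact (Equiv.addRight (round s)).tsum_eq (fun j : ℤ => 2 / (1 + (j : ℝ) ^ 2))

lemma hasSum_geo {q : ℝ} (h0 : 0 ≤ q) (h1 : q < 1) :
    HasSum (fun n : ℤ => q ^ n.natAbs) ((1 - q)⁻¹ + q * (1 - q)⁻¹) := by
  refine HasSum.of_nat_of_neg_add_one ?_ ?_
  · simpa using hasSum_geometric_of_lt_one h0 h1
  · refine ((hasSum_geometric_of_lt_one h0 h1).mul_left q).congr_fun ?_ |>.congr_fun fun _ => rfl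
    intro n
    have : (-((n : ℤ) + 1)).natAbs = n + 1 := by omega
    rw [this, pow_succ']

lemma th_poisson {β : ℝ} (hβ : 0 < β) : ∃ A : ℝ, 0 < A ∧ ∀ s η : ℝ,
    Real.exp (-(π ^ 2 / β)) ≤ η → η ≤ 1 / 5 → |A * th β s - 1| ≤ 5 / 2 * η := by
  have ha : 0 < π / β := div_pos Real.pi_pos hβ
  refine ⟨1 / (π / β) ^ (1 / 2 : ℝ), by positivity, fun s η h1 h2 => ?_⟩
  set q := Real.exp (-(π ^ 2 / β)) with hq
  have hq0 : 0 < q := Real.exp_pos _
  have hq1 : q < 1 := by linarith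
  have key := Complex.tsum_exp_neg_quadratic (a := ((π / β : ℝ) : ℂ))
    (by rwa [Complex.ofReal_re]) (-Complex.I * s)
  have e1 : (1 / ((π / β : ℝ) : ℂ) ^ (1 / 2 : ℂ) * ∑' n : ℤ,
      Complex.exp (-π / ((π / β : ℝ) : ℂ) * (n + Complex.I * (-Complex.I * s)) ^ 2)) =
      ((1 / (π / β) ^ (1 / 2 : ℝ) * th β s : ℝ) : ℂ) := by
    rw [Complex.ofReal_mul, Complex.ofReal_div 1, Complex.ofReal_cpow ha.le, th,
      Complex.ofReal_tsum]
    congr 1
    · push_cast; rfl
    · refine tsum_congr fun n => ?_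
      rw [Complex.ofReal_exp]
      congr 1
      have hπ : (π : ℂ) ≠ 0 := by exact_mod_cast Real.pi_ne_zero
      have hb : (β : ℂ) ≠ 0 := by exact_mod_cast hβ.ne'
      have : Complex.I * (-Complex.I * s) = s := by
        rw [← mul_assoc, mul_neg, Complex.I_mul_I]; ring
      rw [this]
      push_cast
      field_simp
  rw [e1] at key
  set u : ℤ → ℂ := fun n =>
    Complex.exp (-π * ((π / β : ℝ) : ℂ) * n ^ 2 + 2 * π * (-Complex.I * s) * n) with hu
  have hn : ∀ n : ℤ, ‖u n‖ ≤ q ^ n.natAbs := by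
    intro n
    rw [hu]
    simp only
    rw [Complex.norm_exp, hq, ← Real.exp_nat_mul, Real.exp_le_exp]
    have : (-π * ((π / β : ℝ) : ℂ) * n ^ 2 + 2 * π * (-Complex.I * s) * n : ℂ) =
        ((-(π * (π / β) * n ^ 2) : ℝ) : ℂ) + ((-(2 * π * s * n) : ℝ) : ℂ) * Complex.I := by
      push_cast; ring
    rw [this, Complex.add_re, Complex.ofReal_re, Complex.re_ofReal_mul, Complex.I_re]
    have h3 : ((n.natAbs : ℕ) : ℝ) ≤ (n : ℝ) ^ 2 := by
      have := Int.natAbs_le_self_sq n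
      rw [← Int.cast_natCast]
      exact_mod_cast this
    have h4 : π * (π / β) = π ^ 2 / β := by ring
    have h5 : 0 < π ^ 2 / β := by positivity
    rw [h4]
    nlinarith
  have hg := hasSum_geo hq0.le hq1
  have hs : Summable u := Summable.of_norm_bounded hg.summable hn
  have hd : HasSum (fun n : ℤ => if n = 0 then (1 : ℝ) else 0) 1 := hasSum_ite_eq 0 1
  have hd' : HasSum (fun n : ℤ => if n = 0 then (1 : ℂ) else 0) 1 := hasSum_ite_eq 0 1
  have hb := tsum_of_norm_bounded (f := fun n : ℤ => u n - if n = 0 then (1 : ℂ) else 0)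
    (hg.sub hd) (by
      intro n
      by_cases h : n = 0
      · subst h; simp [hu]
      · simpa [h] using hn n)
  rw [(hs.hasSum.sub hd').tsum_eq, key] at hb
  have e2 : ((1 / (π / β) ^ (1 / 2 : ℝ) * th β s : ℝ) : ℂ) - 1 =
      ((1 / (π / β) ^ (1 / 2 : ℝ) * th β s - 1 : ℝ) : ℂ) := by push_cast; rfl
  rw [e2, Complex.norm_real, Real.norm_eq_abs] at hb
  refine hb.trans ?_
  have h6 : (1 - q)⁻¹ + q * (1 - q)⁻¹ - 1 = 2 * q / (1 - q) := by
    have : 1 - q ≠ 0 := by linarith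
    field_simp
    ring
  rw [h6, div_le_iff₀ (by linarith)]
  nlinarith

lemma th_ratio {β : ℝ} (hβ : 0 < β) {η : ℝ} (h1 : Real.exp (-(π ^ 2 / β)) ≤ η) (h2 : η ≤ 1 / 5)
    (s t : ℝ) : th β s ≤ (1 + 10 * η) * th β t := by
  obtain ⟨A, hA, h⟩ := th_poisson hβ
  have a := (abs_le.1 (h s η h1 h2)).2
  have b := (abs_le.1 (h t η h1 h2)).1
  have h0 : 0 < η := (Real.exp_pos _).trans_le h1
  refine le_of_mul_le_mul_left ?_ hA
  have : (1 + 10 * η) * (1 - 5 / 2 * η) ≤ (1 + 10 * η) * (A * th β t) :=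
    mul_le_mul_of_nonneg_left (by linarith) (by linarith)
  nlinarith

end Pool.Agent.MP_caba0b_al.H53
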